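import Pool.Agent.W770.SA.Major
import Pool.Agent.R462.KC.Layers

set_option autoImplicit false

/-!
Sums over direction-separated tubes for sets with a good directional majorant.
-/

open MeasureTheory Set Filter Topology ENNReal NNReal Metric

namespace Pool.Agent.K3h56.CL

open Pool.Agent.W770.SA

/-- The proportions of the tubes of direction `e` which lie in `A` have a majorant `P e` whose
integral is at most `W`. -/
def Cap {m : ℕ} (A : Set (EuclideanSpace ℝ (Fin (m + 1)))) (W : ℝ≥0∞) : Prop :=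
  ∃ P : sphere (0 : EuclideanSpace ℝ (Fin (m + 1))) 1 → ℝ≥0∞, Measurable P ∧
    (∀ (e : sphere (0 : EuclideanSpace ℝ (Fin (m + 1))) 1) (a : EuclideanSpace ℝ (Fin (m + 1)))
      (δ : ℝ), 0 < δ → ((volume (tube δ (e : EuclideanSpace ℝ (Fin (m + 1))) a))⁻¹ *
        volume (tube δ (e : EuclideanSpace ℝ (Fin (m + 1))) a ∩ A)) ^ (m + 1) ≤ P e) ∧
    ∫⁻ e, P e ∂(sig (m + 1)) ≤ W

/-- Counting. -/
theorem count' (m : ℕ) : ∃ C : ℝ, 0 < C ∧ ∀ (A : Set (EuclideanSpace ℝ (Fin (m + 1))))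
    (W : ℝ≥0∞) (lam δ : ℝ)
    (ι : Type) (I : Finset ι) (e a : ι → (EuclideanSpace ℝ (Fin (m + 1)))), Cap A W → 0 < lam →
    0 < δ → δ ≤ 1 → (∀ i, ‖e i‖ = 1) → (∀ i j, i ≠ j → δ ≤ ‖e i - e j‖) →
    (∀ i ∈ I, ENNReal.ofReal lam * volume (tube δ (e i) (a i)) ≤ volume (tube δ (e i) (a i) ∩ A)) →
    (I.card : ℝ≥0∞) ≤ ENNReal.ofReal (C * (1 / lam) ^ (m + 1) * (1 / δ) ^ m) * W := by
  obtain ⟨c, hc, hvol⟩ := Pool.Agent.H742R2.Kk.volume_tube m
  refine ⟨(9 * 4 ^ (m + 1)) ^ (m + 1) * 2 ^ (m + 1) * 16 ^ m / c, by positivity, ?_⟩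
  intro A W lam δ ι I e a hA hlam hδ hδ1 he hsep hI
  obtain ⟨P, hPm, hP, hPint⟩ := hA
  set l' : ℝ := lam / (9 * 4 ^ (m + 1)) with hl'
  have hl'0 : 0 < l' := by positivity
  set Ω : Set (sphere (0 : (EuclideanSpace ℝ (Fin (m + 1)))) 1) :=
    {u | ENNReal.ofReal (l' ^ (m + 1)) ≤ P u} with hΩ
  have hΩm : MeasurableSet Ω := measurableSet_le measurable_const hPm
  have h1 := card_le_sphere hc hvol hδ hδ1 I he hsep hΩm (by
    intro i hi u hu
    set T := tube δ (e i) (a i) with hT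
    have hT0 : volume T ≠ 0 := by
      have h2 : 0 < ENNReal.ofReal (c * δ ^ m) := ENNReal.ofReal_pos.2 (by positivity)
      exact (lt_of_lt_of_le h2 (hvol δ (e i) (a i) hδ (he i))).ne'
    have hTt : volume T ≠ ∞ := ((volume_tube_le hδ (he i)).trans_lt ENNReal.ofReal_lt_top).ne
    have hu1 : ‖(u : EuclideanSpace ℝ (Fin (m + 1)))‖ = 1 := by simp
    have hue : ‖e i - (u : EuclideanSpace ℝ (Fin (m + 1)))‖ ≤ δ := by
      rw [norm_sub_rev]; linarith
    -- the proportions of the pieces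
    set rt : ℝ → ℝ≥0∞ := fun k => (volume (tube (2 * δ) (u : EuclideanSpace ℝ (Fin (m + 1)))
      (a i + k • (u : EuclideanSpace ℝ (Fin (m + 1))))))⁻¹ *
      volume (tube (2 * δ) (u : EuclideanSpace ℝ (Fin (m + 1)))
      (a i + k • (u : EuclideanSpace ℝ (Fin (m + 1)))) ∩ A) with hrt
    have hpiece : ∀ k : ℝ, volume (tube (2 * δ) (u : EuclideanSpace ℝ (Fin (m + 1)))
      (a i + k • (u : EuclideanSpace ℝ (Fin (m + 1)))) ∩ A) ≤ 3 * 4 ^ (m + 1) * volume T * rt k := by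
      intro k
      set S := tube (2 * δ) (u : EuclideanSpace ℝ (Fin (m + 1)))
        (a i + k • (u : EuclideanSpace ℝ (Fin (m + 1)))) with hS
      have hS0 : volume S ≠ 0 := by
        have h2 : 0 < ENNReal.ofReal (c * (2 * δ) ^ m) := ENNReal.ofReal_pos.2 (by positivity)
        exact (lt_of_lt_of_le h2 (hvol (2 * δ) _ _ (by positivity) hu1)).ne'
      have hSt : volume S ≠ ∞ :=
        ((volume_tube_le (by positivity : 0 < 2 * δ) hu1).trans_lt ENNReal.ofReal_lt_top).ne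
      have e1 : volume (S ∩ A) = volume S * rt k := by
        rw [hrt]
        simp only
        rw [← hS, ← mul_assoc, ENNReal.mul_inv_cancel hS0 hSt, one_mul]
      rw [e1]
      gcongr
      exact volume_tube_compare hδ hδ1 (a i) _ (he i) hu1 hue
    have hrP : ∀ k : ℝ, rt k ^ (m + 1) ≤ P u := fun k => hP u _ (2 * δ) (by positivity)
    by_contra hcon
    simp only [hΩ, mem_ofPred_eq, not_le] at hcon
    have hr : ∀ k : ℝ, rt k < ENNReal.ofReal l' := by
      intro k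
      by_contra h3
      push Not at h3
      have h4 : ENNReal.ofReal (l' ^ (m + 1)) ≤ rt k ^ (m + 1) := by
        rw [ENNReal.ofReal_pow hl'0.le]
        exact pow_le_pow_left' h3 _
      exact absurd (h4.trans (hrP k)) (not_le.2 hcon)
    have h5 : volume (T ∩ A) ≤ 3 * 4 ^ (m + 1) * volume T * (rt (-1) + rt 0 + rt 1) := by
      calc volume (T ∩ A) ≤ volume (((tube (2 * δ) (u : EuclideanSpace ℝ (Fin (m + 1)))
              (a i + (-1 : ℝ) • (u : EuclideanSpace ℝ (Fin (m + 1)))) ∩ A) ∪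
            (tube (2 * δ) (u : EuclideanSpace ℝ (Fin (m + 1)))
              (a i + (0 : ℝ) • (u : EuclideanSpace ℝ (Fin (m + 1)))) ∩ A)) ∪
            (tube (2 * δ) (u : EuclideanSpace ℝ (Fin (m + 1)))
              (a i + (1 : ℝ) • (u : EuclideanSpace ℝ (Fin (m + 1)))) ∩ A)) := by
            apply measure_mono
            rw [← union_inter_distrib_right, ← union_inter_distrib_right]
            exact inter_subset_inter_left _ (tube_cover hδ hδ1 (a i) (he i) hu1 hue)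
        _ ≤ (volume (tube (2 * δ) (u : EuclideanSpace ℝ (Fin (m + 1)))
              (a i + (-1 : ℝ) • (u : EuclideanSpace ℝ (Fin (m + 1)))) ∩ A) +
            volume (tube (2 * δ) (u : EuclideanSpace ℝ (Fin (m + 1)))
              (a i + (0 : ℝ) • (u : EuclideanSpace ℝ (Fin (m + 1)))) ∩ A)) +
            volume (tube (2 * δ) (u : EuclideanSpace ℝ (Fin (m + 1)))
              (a i + (1 : ℝ) • (u : EuclideanSpace ℝ (Fin (m + 1)))) ∩ A) :=
            (measure_union_le _ _).trans (add_le_add (measure_union_le _ _) le_rfl)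
        _ ≤ (3 * 4 ^ (m + 1) * volume T * rt (-1) + 3 * 4 ^ (m + 1) * volume T * rt 0) +
            3 * 4 ^ (m + 1) * volume T * rt 1 :=
            add_le_add (add_le_add (hpiece _) (hpiece _)) (hpiece _)
        _ = _ := by ring
    have h6 : ENNReal.ofReal lam * volume T ≤
        (3 * 4 ^ (m + 1) * (rt (-1) + rt 0 + rt 1)) * volume T := by
      refine (hI i hi).trans (h5.trans (le_of_eq ?_)); ring
    have h7 : ENNReal.ofReal lam ≤ 3 * 4 ^ (m + 1) * (rt (-1) + rt 0 + rt 1) :=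
      (ENNReal.mul_le_mul_iff_left hT0 hTt).1 h6
    have h8 : 3 * 4 ^ (m + 1) * (rt (-1) + rt 0 + rt 1) <
        3 * 4 ^ (m + 1) * (ENNReal.ofReal l' + ENNReal.ofReal l' + ENNReal.ofReal l') := by
      have h9 : rt (-1) + rt 0 + rt 1 < ENNReal.ofReal l' + ENNReal.ofReal l' + ENNReal.ofReal l' :=
        ENNReal.add_lt_add (ENNReal.add_lt_add (hr _) (hr _)) (hr _)
      exact (ENNReal.mul_lt_mul_iff_right (by positivity)
        (ENNReal.mul_ne_top (by norm_num) (ENNReal.pow_ne_top (by norm_num)))).2 h9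
    have h10 : 3 * 4 ^ (m + 1) * (ENNReal.ofReal l' + ENNReal.ofReal l' + ENNReal.ofReal l') =
        ENNReal.ofReal lam := by
      have e1 : (3 * 4 ^ (m + 1) : ℝ≥0∞) = ENNReal.ofReal (3 * 4 ^ (m + 1)) := by
        rw [ENNReal.ofReal_mul (by norm_num), ENNReal.ofReal_pow (by norm_num)]
        simp
      rw [e1, ← ENNReal.ofReal_add hl'0.le hl'0.le, ← ENNReal.ofReal_add (by positivity) hl'0.le,
        ← ENNReal.ofReal_mul (by positivity)]
      congr 1
      rw [hl']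
      field_simp
      norm_num
    rw [h10] at h8
    exact absurd h7 (not_le.2 h8))
  have h2 : ENNReal.ofReal (l' ^ (m + 1)) * sig (m + 1) Ω ≤ W := by
    refine le_trans ?_ hPint
    exact mul_meas_ge_le_lintegral hPm _
  set κ : ℝ := (2 ^ (m + 1))⁻¹ * (c * (δ / 16) ^ m) with hκ
  have hκ0 : 0 < κ := by positivity
  have h3 : ENNReal.ofReal (l' ^ (m + 1) * κ) * I.card ≤ W := by
    rw [ENNReal.ofReal_mul (by positivity), mul_assoc]
    exact (mul_le_mul' le_rfl h1).trans h2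
  have hlκ : 0 < l' ^ (m + 1) * κ := by positivity
  have h4 : (I.card : ℝ≥0∞) = ENNReal.ofReal (l' ^ (m + 1) * κ)⁻¹ *
      (ENNReal.ofReal (l' ^ (m + 1) * κ) * I.card) := by
    rw [← mul_assoc, ← ENNReal.ofReal_mul (by positivity), inv_mul_cancel₀ hlκ.ne']
    simp
  rw [h4]
  refine (mul_le_mul' le_rfl h3).trans (le_of_eq ?_)
  congr 2
  rw [hκ, hl']
  have e1 : (δ / 16) ^ m * 16 ^ m * (1 / δ) ^ m = 1 := by
    rw [← mul_pow, ← mul_pow]
    have : δ / 16 * 16 * (1 / δ) = 1 := by field_simp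
    rw [this, one_pow]
  have e2 : ((lam / (9 * 4 ^ (m + 1))) ^ (m + 1))⁻¹ =
      (9 * 4 ^ (m + 1)) ^ (m + 1) * (1 / lam) ^ (m + 1) := by
    rw [← inv_pow, ← mul_pow]; congr 1; field_simp
  have e3 : ((δ / 16) ^ m)⁻¹ = 16 ^ m * (1 / δ) ^ m := by
    apply inv_eq_of_mul_eq_one_right
    rw [← mul_assoc]; exact e1
  rw [mul_inv, e2, mul_inv, mul_inv, inv_inv, e3]
  ring

/-- the critical volume of a family of `N` tubes -/
noncomputable def crV (m : ℕ) (C κ δ N : ℝ) : ℝ :=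
  C * κ ^ (1 / (m:ℝ)) * δ ^ m * N ^ (-(1 / (m:ℝ)))

theorem crV_pos {m : ℕ} {C κ : ℝ} (hC : 0 < C) (hκ : 0 < κ) {δ N : ℝ} (hδ : 0 < δ) (hN : 0 < N) :
    0 < crV m C κ δ N := by
  unfold crV
  positivity

/-- The endpoint estimate for sets. -/
theorem set_est' (m : ℕ) (hm : 1 ≤ m) : ∃ C : ℝ, 0 < C ∧
    ∀ (A : Set (EuclideanSpace ℝ (Fin (m + 1)))) (V : ℝ≥0∞) (κ δ : ℝ)
    (ι : Type) [Fintype ι] (e a : ι → (EuclideanSpace ℝ (Fin (m + 1)))), 0 < κ →
    Cap A (ENNReal.ofReal κ * V) →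
    0 < δ → δ ≤ 1 → (∀ i, ‖e i‖ = 1) → (∀ i j, i ≠ j → δ ≤ ‖e i - e j‖) →
    ∑ i, volume (tube δ (e i) (a i) ∩ A) ≤
      ENNReal.ofReal ((Fintype.card ι : ℝ) *
        crV m C κ δ (Fintype.card ι) ^ ((m:ℝ) / (m + 1))) * V ^ (1 / ((m:ℝ) + 1)) := by
  obtain ⟨C, hC, hcount⟩ := count' m
  have hm0 : (0:ℝ) < m := by exact_mod_cast hm
  refine ⟨(3 * 2 ^ m * C ^ (1 / ((m:ℝ) + 1))) ^ (((m:ℝ) + 1) / m), by positivity, ?_⟩
  intro A U κ δ ι _ e a hκ hA hδ hδ1 he hsep
  rcases Nat.eq_zero_or_pos (Fintype.card ι) with h0 | h0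
  · have : IsEmpty ι := Fintype.card_eq_zero_iff.1 h0
    simp
  set N : ℝ := (Fintype.card ι : ℝ) with hN
  have hN0 : 0 < N := by rw [hN]; exact_mod_cast h0
  set C' : ℝ := (3 * 2 ^ m * C ^ (1 / ((m:ℝ) + 1))) ^ (((m:ℝ) + 1) / m) with hC'
  have hC'0 : 0 < C' := by positivity
  have hR := crV_pos (m := m) hC'0 hκ hδ hN0
  rcases eq_or_ne U ∞ with htop | htop
  · rw [htop, ENNReal.top_rpow_of_pos (by positivity), ENNReal.mul_top]
    · exact le_top
    · rw [Ne, ENNReal.ofReal_eq_zero, not_le]; positivity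
  set V : ℝ := (2 * δ) ^ m with hV
  have hV0 : 0 < V := by positivity
  have hVT : ∀ i, volume (tube δ (e i) (a i)) ≤ ENNReal.ofReal V := fun i => volume_tube_le hδ (he i)
  have hfin : ∀ i, volume (tube δ (e i) (a i) ∩ A) ≠ ∞ := fun i =>
    ((measure_mono inter_subset_left).trans_lt ((hVT i).trans_lt ENNReal.ofReal_lt_top)).ne
  set y : ι → ℝ := fun i => (volume (tube δ (e i) (a i) ∩ A)).toReal / V with hy
  have hy0 : ∀ i, 0 ≤ y i := fun i => by positivity
  have hy' : ∀ i, volume (tube δ (e i) (a i) ∩ A) = ENNReal.ofReal V * ENNReal.ofReal (y i) := by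
    intro i
    rw [hy, ← ENNReal.ofReal_mul hV0.le]
    simp only
    rw [mul_div_cancel₀ _ hV0.ne', ENNReal.ofReal_toReal (hfin i)]
  have hcnt : ∀ l : ℝ, 0 < l → ∀ I : Finset ι, (∀ i ∈ I, l < y i) →
      (I.card : ℝ≥0∞) ≤ ENNReal.ofReal (C * (1 / l) ^ (m + 1) * (1 / δ) ^ m) *
        (ENNReal.ofReal κ * U) := by
    intro l hl I hI
    exact hcount A _ l δ ι I e a hA hl hδ hδ1 he hsep (by
      intro i hi
      rw [hy' i]
      calc ENNReal.ofReal l * volume (tube δ (e i) (a i)) ≤ ENNReal.ofReal (y i) * ENNReal.ofReal V := by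
            gcongr
            · exact (hI i hi).le
            · exact hVT i
        _ = _ := mul_comm _ _)
  rcases eq_or_ne U 0 with hz | hz
  · have : ∀ i, volume (tube δ (e i) (a i) ∩ A) = 0 := by
      intro i
      rw [hy' i]
      rcases (hy0 i).eq_or_lt with h1 | h1
      · rw [← h1]; simp
      · exfalso
        have h2 := hcnt (y i / 2) (by positivity) {i} (by
          intro j hj
          rw [Finset.mem_singleton] at hj
          rw [hj]; linarith)
        rw [hz, mul_zero, mul_zero, Finset.card_singleton] at h2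
        simp at h2
    simp [this]
  set v : ℝ := U.toReal with hv
  have hv0 : 0 < v := ENNReal.toReal_pos hz htop
  have hvA : U = ENNReal.ofReal v := (ENNReal.ofReal_toReal htop).symm
  set X : ℝ := C * κ * (1 / δ) ^ m * v with hX
  have hX0 : 0 < X := by positivity
  have hs := sum_of_count (y := y) hm hX0 (by
    intro l hl I hI
    have h1 := hcnt l hl I hI
    rw [hvA, ← ENNReal.ofReal_mul hκ.le, ← ENNReal.ofReal_mul (by positivity)] at h1
    refine h1.trans (le_of_eq ?_)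
    congr 1
    rw [hX]; ring)
  calc ∑ i, volume (tube δ (e i) (a i) ∩ A) = ENNReal.ofReal V * ∑ i, ENNReal.ofReal (y i) := by
        rw [Finset.mul_sum]
        exact Finset.sum_congr rfl fun i _ => hy' i
    _ ≤ ENNReal.ofReal V * ENNReal.ofReal (3 * (N * (X / N) ^ (1 / ((m:ℝ) + 1)))) := by gcongr
    _ = ENNReal.ofReal (N * crV m C' κ δ N ^ ((m:ℝ) / (m + 1)) * v ^ (1 / ((m:ℝ) + 1))) := by
        rw [← ENNReal.ofReal_mul hV0.le]
        congr 1
        have hm1 : ((m:ℝ) + 1) ≠ 0 := by positivity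
        have e1 : C' ^ ((m:ℝ) / (m + 1)) = 3 * 2 ^ m * C ^ (1 / ((m:ℝ) + 1)) := by
          rw [hC', ← Real.rpow_mul (by positivity)]
          have : ((m:ℝ) + 1) / m * (m / (m + 1)) = 1 := by field_simp
          rw [this, Real.rpow_one]
        have e2 : (κ ^ (1 / (m:ℝ))) ^ ((m:ℝ) / (m + 1)) = κ ^ (1 / ((m:ℝ) + 1)) := by
          rw [← Real.rpow_mul hκ.le]
          congr 1
          field_simp
        have e3 : δ ^ m * ((1 / δ) ^ m) ^ (1 / ((m:ℝ) + 1)) = (δ ^ m) ^ ((m:ℝ) / (m + 1)) := by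
          have h1 : (1 / δ) ^ m = (δ ^ m) ^ (-1 : ℝ) := by
            rw [Real.rpow_neg_one, one_div, inv_pow]
          have h2 : 0 < δ ^ m := by positivity
          rw [h1, ← Real.rpow_mul h2.le]
          nth_rewrite 1 [← Real.rpow_one (δ ^ m)]
          rw [← Real.rpow_add h2]
          congr 1
          field_simp
          ring
        have e4 : (N ^ (-(1 / (m:ℝ)))) ^ ((m:ℝ) / (m + 1)) = (N⁻¹) ^ (1 / ((m:ℝ) + 1)) := by
          rw [← Real.rpow_neg_one N, ← Real.rpow_mul hN0.le, ← Real.rpow_mul hN0.le]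
          congr 1
          field_simp
        have e5 : crV m C' κ δ N ^ ((m:ℝ) / (m + 1)) = (3 * 2 ^ m * C ^ (1 / ((m:ℝ) + 1))) *
            κ ^ (1 / ((m:ℝ) + 1)) *
            (δ ^ m * ((1 / δ) ^ m) ^ (1 / ((m:ℝ) + 1))) * (N⁻¹) ^ (1 / ((m:ℝ) + 1)) := by
          unfold crV
          rw [Real.mul_rpow (by positivity) (by positivity), Real.mul_rpow (by positivity) (by positivity),
            Real.mul_rpow (by positivity) (by positivity), e1, e2, e3, e4]
        have e6 : (X / N) ^ (1 / ((m:ℝ) + 1)) = C ^ (1 / ((m:ℝ) + 1)) *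
            κ ^ (1 / ((m:ℝ) + 1)) * ((1 / δ) ^ m) ^ (1 / ((m:ℝ) + 1)) *
            v ^ (1 / ((m:ℝ) + 1)) * (N⁻¹) ^ (1 / ((m:ℝ) + 1)) := by
          rw [hX, div_eq_mul_inv, Real.mul_rpow (by positivity) (by positivity),
            Real.mul_rpow (by positivity) (by positivity), Real.mul_rpow (by positivity) (by positivity),
            Real.mul_rpow (by positivity) (by positivity)]
        rw [e5, e6, hV, mul_pow]
        ring
    _ = _ := by
        rw [ENNReal.ofReal_mul (by positivity), hvA, ENNReal.ofReal_rpow_of_pos hv0]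

end Pool.Agent.K3h56.CL
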