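import Pool.Agent.K3h56.CL.A

set_option autoImplicit false

/-!
The tube inequality tested against functions whose superlevel sets have a good directional majorant.
-/

open MeasureTheory Set Filter Topology ENNReal NNReal Metric

namespace Pool.Agent.K3h56.CL

open Pool.Agent.W770.SA

/-- The superlevel sets of `|g|` have directional majorants. -/
def CapF {m : ℕ} (κ : ℝ) (g : EuclideanSpace ℝ (Fin (m + 1)) → ℝ) : Prop :=
  ∀ s : ℝ, 0 < s → Cap {y | s < |g y|} (ENNReal.ofReal κ * volume {y | s < |g y|})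

theorem multMeas_apply {n : ℕ} (δ : ℝ) {ι : Type} [Fintype ι] (e a : ι → EuclideanSpace ℝ (Fin n))
    (A : Set (EuclideanSpace ℝ (Fin n))) :
    multMeas δ e a A = ∑ i, volume (tube δ (e i) (a i) ∩ A) := by
  unfold multMeas
  rw [Measure.finsetSum_apply]
  apply Finset.sum_congr rfl
  intro i _
  rw [Measure.restrict_apply' (isClosed_tube _ _ _).measurableSet, inter_comm]

/-- **The tube inequality tested against functions.** -/
theorem tests' (m : ℕ) (hm : 1 ≤ m) {q : ℝ} (hq : ((m:ℝ) + 1) / m < q) : ∃ C : ℝ, 0 < C ∧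
    ∀ (κ δ : ℝ) (ι : Type) [Fintype ι] (e a : ι → EuclideanSpace ℝ (Fin (m + 1)))
      (g : EuclideanSpace ℝ (Fin (m + 1)) → ℝ), 0 < κ → 0 < δ → δ ≤ 1 → (∀ i, ‖e i‖ = 1) →
      (∀ i j, i ≠ j → δ ≤ ‖e i - e j‖) → AEMeasurable g volume → CapF κ g →
      ∫⁻ y, ‖g y‖ₑ * ENNReal.ofReal (mult δ e a y) ≤
        ENNReal.ofReal (C * κ ^ (1 / (q * m)) * δ ^ ((m:ℝ) / q) *
          (Fintype.card ι : ℝ) ^ (1 - 1 / (q * m))) *
        (∫⁻ y, ‖g y‖ₑ ^ (q / (q - 1))) ^ ((q - 1) / q) := by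
  obtain ⟨C, hC, hset⟩ := set_est' m hm
  have hm0 : (0:ℝ) < m := by exact_mod_cast hm
  have hq1 : 1 < q := by
    refine lt_of_le_of_lt ?_ hq
    rw [le_div_iff₀ hm0]; linarith
  have hq0 : 0 < q := by linarith
  set p : ℝ := q / (q - 1) with hpdef
  have hq10 : 0 < q - 1 := by linarith
  have hp1 : 1 < p := by rw [hpdef, lt_div_iff₀ hq10]; linarith
  have hp0 : 0 < p := by linarith
  have hpm : p < (m:ℝ) + 1 := by
    rw [hpdef, div_lt_iff₀ hq10]
    rw [div_lt_iff₀ hm0] at hq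
    linarith
  have hpq : 1 - 1 / p = 1 / q := by
    rw [hpdef]; field_simp; ring
  have hqp : (q - 1) / q = 1 / p := by rw [hpdef]; field_simp
  have hpm' : p / ((m:ℝ) + 1) < 1 := by rw [div_lt_one (by positivity)]; exact hpm
  have hA0 : 0 < 1 - p / ((m:ℝ) + 1) := by linarith
  have hB0 : 0 < p - 1 := by linarith
  refine ⟨(1 / (1 - p / ((m:ℝ) + 1)) + 1 / (p - 1)) * C ^ (1 / q), by positivity, ?_⟩
  intro κ δ ι _ e a g hκ hδ hδ1 he hsep hgm hg
  rcases Nat.eq_zero_or_pos (Fintype.card ι) with h0 | h0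
  · have : IsEmpty ι := Fintype.card_eq_zero_iff.1 h0
    simp [mult]
  set N : ℝ := (Fintype.card ι : ℝ) with hN
  have hN0 : 0 < N := by rw [hN]; exact_mod_cast h0
  have hR := crV_pos (m := m) hC hκ hδ hN0
  set R := crV m C κ δ N with hRdef
  rw [hqp, ← lintegral_multMeas δ e a hgm.enorm]
  have hac : multMeas δ e a ≪ (volume : Measure (EuclideanSpace ℝ (Fin (m + 1)))) := by
    intro s hs
    unfold multMeas
    rw [Measure.finsetSum_apply]
    exact Finset.sum_eq_zero fun i _ => Measure.absolutelyContinuous_of_le Measure.restrict_le_self hs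
  set W := ∫⁻ y, ‖g y‖ₑ ^ p with hW
  have hK0 : 0 < (1 / (1 - p / ((m:ℝ) + 1)) + 1 / (p - 1)) * C ^ (1 / q) *
    κ ^ (1 / (q * m)) * δ ^ ((m:ℝ) / q) * N ^ (1 - 1 / (q * m)) := by positivity
  rcases eq_or_ne W ∞ with htop | htop
  · rw [htop, ENNReal.top_rpow_of_pos (by positivity), ENNReal.mul_top]
    · exact le_top
    · rw [Ne, ENNReal.ofReal_eq_zero, not_le]; exact hK0
  rcases eq_or_ne W 0 with hz | hz
  · have h1 : (fun y => ‖g y‖ₑ ^ p) =ᵐ[volume] 0 := (lintegral_eq_zero_iff' (hgm.enorm.pow_const p)).1 hz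
    have h2 : (fun y => ‖g y‖ₑ) =ᵐ[multMeas δ e a] 0 := by
      apply hac.ae_eq
      filter_upwards [h1] with y hy
      simpa [hp0, hp0.le] using hy
    rw [lintegral_congr_ae h2]
    simp
  set G : ℝ := W.toReal ^ (1 / p) with hG
  have hWr : 0 < W.toReal := ENNReal.toReal_pos hz htop
  have hG0 : 0 < G := by positivity
  have hGp : W = ENNReal.ofReal (G ^ p) := by
    rw [hG, ← Real.rpow_mul hWr.le, one_div, inv_mul_cancel₀ hp0.ne', Real.rpow_one,
      ENNReal.ofReal_toReal htop]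
  have hWG : W ^ (1 / p) = ENNReal.ofReal G := by
    rw [hGp, ENNReal.ofReal_rpow_of_pos (by positivity), ← Real.rpow_mul hG0.le, mul_one_div,
      div_self hp0.ne', Real.rpow_one]
  have key := interp volume (multMeas δ e a) (f := fun y => |g y|) hpm hp1 hN0 hR hG0 (fun y => abs_nonneg _)
    ((hgm.mono_ac hac).abs)
    (by
      intro s _
      unfold multMeas
      rw [Measure.finsetSum_apply]
      calc ∑ i, (volume.restrict (tube δ (e i) (a i))) {y | s < |g y|} ≤ ∑ _i : ι, volume {y | s < |g y|} :=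
            Finset.sum_le_sum fun i _ => Measure.restrict_apply_le _ _
        _ = _ := by
            rw [Finset.sum_const, nsmul_eq_mul, Finset.card_univ, hN, ENNReal.ofReal_natCast])
    (by
      intro s hs
      have h1 := hset _ _ κ δ ι e a hκ (hg s hs) hδ hδ1 he hsep
      rw [multMeas_apply]
      have h3 : (1 - 1 / ((m:ℝ) + 1)) = (m:ℝ) / (m + 1) := by field_simp; ring
      rw [h3]
      exact h1)
    (fun s hs => markovP hgm hp0 hG0 (le_of_eq hGp) hs)
  have h4 : ∫⁻ y, ‖g y‖ₑ ∂(multMeas δ e a) = ∫⁻ y, ENNReal.ofReal |g y| ∂(multMeas δ e a) := by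
    apply lintegral_congr
    intro y
    rw [← ofReal_norm, Real.norm_eq_abs]
  rw [h4, hWG, ← ENNReal.ofReal_mul hK0.le]
  refine key.trans (ENNReal.ofReal_le_ofReal (le_of_eq ?_))
  rw [hpq]
  have h5 : R ^ (1 / q) = C ^ (1 / q) * κ ^ (1 / (q * m)) * δ ^ ((m:ℝ) / q) *
      N ^ (-(1 / (q * m))) := by
    rw [hRdef]
    unfold crV
    rw [Real.mul_rpow (by positivity) (by positivity), Real.mul_rpow (by positivity) (by positivity),
      Real.mul_rpow (by positivity) (by positivity), ← Real.rpow_mul hκ.le, ← Real.rpow_natCast δ m,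
      ← Real.rpow_mul hδ.le, ← Real.rpow_mul hN0.le]
    have e1 : 1 / (m:ℝ) * (1 / q) = 1 / (q * m) := by
      field_simp
    have e2 : (m:ℝ) * (1 / q) = (m:ℝ) / q := by ring
    have e3 : -(1 / (m:ℝ)) * (1 / q) = -(1 / (q * m)) := by
      field_simp
    rw [e1, e2, e3]
  have h6 : N * N ^ (-(1 / (q * m))) = N ^ (1 - 1 / (q * m)) := by
    nth_rewrite 1 [← Real.rpow_one N]
    rw [← Real.rpow_add hN0]
    congr 1
  rw [h5, ← h6]
  ring

theorem CapF.rpow {m : ℕ} {κ : ℝ} {g : EuclideanSpace ℝ (Fin (m + 1)) → ℝ} (hg : CapF κ g) {r : ℝ}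
    (hr : 0 < r) : CapF κ (fun y => |g y| ^ r) := by
  intro s hs
  have h1 : {y | s < |(|g y| ^ r)|} = {y | s ^ (1 / r) < |g y|} := by
    ext y
    simp only [mem_ofPred_eq]
    rw [abs_of_nonneg (Real.rpow_nonneg (abs_nonneg (g y)) r)]
    have h2 : s = (s ^ (1 / r)) ^ r := by
      rw [← Real.rpow_mul hs.le, one_div, inv_mul_cancel₀ hr.ne', Real.rpow_one]
    nth_rewrite 1 [h2]
    rw [Real.rpow_lt_rpow_iff (by positivity) (abs_nonneg _) hr]
  rw [h1]
  exact hg _ (by positivity)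

/-- **Families whose multiplicity function has a good majorant.** -/
theorem majorant' (m : ℕ) (hm : 1 ≤ m) {q : ℝ} (hq : ((m:ℝ) + 1) / m < q) : ∃ C : ℝ, 0 < C ∧
    ∀ (κ δ K : ℝ) (ι : Type) [Fintype ι] (e a : ι → EuclideanSpace ℝ (Fin (m + 1)))
      (g : EuclideanSpace ℝ (Fin (m + 1)) → ℝ), 0 < κ → 0 < δ → δ ≤ 1 → (∀ i, ‖e i‖ = 1) →
      (∀ i j, i ≠ j → δ ≤ ‖e i - e j‖) → AEMeasurable g volume → CapF κ g → 0 ≤ K →
      (∀ᵐ y, mult δ e a y ≤ |g y|) →
      eLpNorm g (ENNReal.ofReal q) volume ≤ ENNReal.ofReal K * eLpNorm (mult δ e a) (ENNReal.ofReal q) volume →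
      eLpNorm (mult δ e a) (ENNReal.ofReal q) volume ≤
        ENNReal.ofReal (C * K ^ (q - 1) * κ ^ (1 / (q * m)) * δ ^ ((m:ℝ) / q) *
          (Fintype.card ι : ℝ) ^ (1 - 1 / (q * m))) := by
  obtain ⟨C, hC, htest⟩ := tests' m hm hq
  have hm0 : (0:ℝ) < m := by exact_mod_cast hm
  have hq1 : 1 < q := by
    refine lt_of_le_of_lt ?_ hq
    rw [le_div_iff₀ hm0]; linarith
  have hq0 : 0 < q := by linarith
  have hq10 : 0 < q - 1 := by linarith
  refine ⟨C, hC, ?_⟩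
  intro κ δ K ι _ e a g hκ hδ hδ1 he hsep hgm hg hK hmaj hnorm
  have hqne : ENNReal.ofReal q ≠ 0 := by rw [Ne, ENNReal.ofReal_eq_zero, not_le]; exact hq0
  rw [eLpNorm_eq_lintegral_rpow_enorm_toReal hqne ENNReal.ofReal_ne_top,
    eLpNorm_eq_lintegral_rpow_enorm_toReal hqne ENNReal.ofReal_ne_top, ENNReal.toReal_ofReal hq0.le] at hnorm
  rw [eLpNorm_eq_lintegral_rpow_enorm_toReal hqne ENNReal.ofReal_ne_top, ENNReal.toReal_ofReal hq0.le]
  set I := ∫⁻ y, ‖mult δ e a y‖ₑ ^ q with hI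
  have hItop : I < ∞ := lintegral_mult_rpow_lt_top δ e a he hq1.le
  set J := ∫⁻ y, ‖g y‖ₑ ^ q with hJ
  set K0 : ℝ := C * κ ^ (1 / (q * m)) * δ ^ ((m:ℝ) / q) *
          (Fintype.card ι : ℝ) ^ (1 - 1 / (q * m)) with hK0
  have hK00 : 0 ≤ K0 := by positivity
  have h1 := htest κ δ ι e a (fun y => |g y| ^ (q - 1)) hκ hδ hδ1 he hsep
    ((hgm.abs).pow_const _) (hg.rpow hq10)
  simp only [enorm_abs_rpow _ hq10.le] at h1
  have h2 : ∀ y, (‖g y‖ₑ ^ (q - 1)) ^ (q / (q - 1)) = ‖g y‖ₑ ^ q := by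
    intro y
    rw [← ENNReal.rpow_mul]
    congr 1
    field_simp
  simp only [h2] at h1
  rw [← hJ, ← hK0] at h1
  have h3 : I ≤ ∫⁻ y, ‖g y‖ₑ ^ (q - 1) * ENNReal.ofReal (mult δ e a y) := by
    apply lintegral_mono_ae
    filter_upwards [hmaj] with y hy
    have h4 : ‖mult δ e a y‖ₑ = ENNReal.ofReal (mult δ e a y) := by
      rw [← ofReal_norm, Real.norm_eq_abs, abs_of_nonneg (mult_nonneg δ e a y)]
    have h5 : ENNReal.ofReal (mult δ e a y) ≤ ‖g y‖ₑ := by
      rw [← ofReal_norm, Real.norm_eq_abs]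
      exact ENNReal.ofReal_le_ofReal hy
    have h6 : q = (q - 1) + 1 := by ring
    rw [h4]
    nth_rewrite 1 [h6]
    rw [ENNReal.rpow_add_of_nonneg _ _ hq10.le (by norm_num), ENNReal.rpow_one]
    gcongr
  have h7 : J ^ ((q - 1) / q) ≤ ENNReal.ofReal (K ^ (q - 1)) * I ^ ((q - 1) / q) := by
    have e1 : (q - 1) / q = (1 / q) * (q - 1) := by ring
    rw [e1, ENNReal.rpow_mul, ENNReal.rpow_mul, ← ENNReal.ofReal_rpow_of_nonneg hK hq10.le,
      ← ENNReal.mul_rpow_of_nonneg _ _ hq10.le]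
    gcongr
  have h8 : I ≤ ENNReal.ofReal (K0 * K ^ (q - 1)) * I ^ ((q - 1) / q) := by
    calc I ≤ ENNReal.ofReal K0 * J ^ ((q - 1) / q) := h3.trans h1
      _ ≤ ENNReal.ofReal K0 * (ENNReal.ofReal (K ^ (q - 1)) * I ^ ((q - 1) / q)) := by gcongr
      _ = _ := by rw [← mul_assoc, ← ENNReal.ofReal_mul hK00]
  have h9 : I ^ (1 / q) ≤ ENNReal.ofReal (K0 * K ^ (q - 1)) := by
    rcases eq_or_ne I 0 with hz | hz
    · rw [hz, ENNReal.zero_rpow_of_pos (by positivity)]; exact zero_le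
    · have h10 : I = I ^ (1 / q) * I ^ ((q - 1) / q) := by
        rw [← ENNReal.rpow_add _ _ hz hItop.ne]
        have : 1 / q + (q - 1) / q = 1 := by field_simp; ring
        rw [this, ENNReal.rpow_one]
      have h11 : I ^ ((q - 1) / q) ≠ 0 := by
        rw [Ne, ENNReal.rpow_eq_zero_iff]
        push Not
        exact ⟨fun h => absurd h hz, fun h => absurd h hItop.ne⟩
      have h12 : I ^ ((q - 1) / q) ≠ ∞ := (ENNReal.rpow_lt_top_of_nonneg (by positivity) hItop.ne).ne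
      rw [← ENNReal.mul_le_mul_iff_left h11 h12, ← h10]
      exact h8
  refine h9.trans (le_of_eq ?_)
  congr 1
  rw [hK0]; ring

end Pool.Agent.K3h56.CL
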